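import Mathlib
import Pool.Agent.TH600.LC.Flat
import Pool.Agent.TH143.HE.PCur

/-!
# Lang's conjecture on hyperbolicity and rational points for holonomic and lacunary curves

`k` is a number field with an embedding `σ` into `ℂ`, and `X`, `X'` are the closed subschemes of the
projective space over `k` which are given by the forms in the ideals `I`, `I'` (for Lang's conjecture
`X'` is empty, `I' = ⊤`).

The following conditions are equivalent (and hence do not depend on `σ`):

* all nonconstant entire curves in `X_σ` with homogeneous coordinates in the ring generated by the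
  entire functions which satisfy linear differential equations with polynomial coefficients and the
  entire functions with Hadamard gaps at a point lie in `X'_σ`;
* the same for the entire functions which satisfy linear differential equations;
* for all finite extensions `L` of `k` the sequences of points of `X(L)` outside of `X'(L)` with
  P-recursive homogeneous coordinates are eventually periodic;
* these sequences have only finitely many different terms;
* all rational curves in `X_σ` lie in `X'_σ`.

In particular both directions of Lang's conjecture hold for these curves and these sequences: if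
`X(L)` is finite for all `L` then all these entire curves are constant, and if `X_σ` is hyperbolic
then all these sequences of rational points are eventually periodic.

The conditions are from the theory of helper143 (`TH143/HE`), the curves with gaps are from
`TH600/LC`.
-/

set_option autoImplicit false

namespace Pool.Agent.Results.MP_f82ddf_nt.HolonomicLang

open MvPolynomial Pool.Agent.TH143 Pool.Agent.TH143.HE
open Pool.Agent.TH600.LC (HadamardGaps)

variable {k : Type} [Field k] {N : ℕ}

/-- The entire functions which satisfy a linear differential equation with polynomial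
coefficients. -/
def Holonomic : Set (ℂ → ℂ) := {u | Differentiable ℂ u ∧ PolODE u}

/-- The ring generated by the holonomic entire functions and the entire functions with Hadamard
gaps at `z₀`. -/
noncomputable def HolGap (z₀ : ℂ) : Subalgebra ℂ (ℂ → ℂ) :=
  Algebra.adjoin ℂ (Holonomic ∪ {g | HadamardGaps z₀ g})

/-- Every nonconstant entire curve in `X_σ` with homogeneous coordinates in the set `R` of functions
lies in `X'_σ`. The curve is given by entire functions `f` without common zeros, and its homogeneous
coordinates `h` with entries in `R` are proportional to `f`. -/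
def CurvesIn (σ : k →+* ℂ) (R : Set (ℂ → ℂ)) (I I' : Ideal (MvPolynomial (Fin (N + 1)) k)) : Prop :=
  ∀ f : ℂ → Fin (N + 1) → ℂ, (∀ j, Differentiable ℂ (fun z => f z j)) → (∀ z, f z ≠ 0) →
    (∀ z, IsPtP σ I (f z)) → NonConstC f →
    (∃ h : ℂ → Fin (N + 1) → ℂ, (∀ j, (fun z => h z j) ∈ R) ∧ (∃ z, h z ≠ 0) ∧
      ∀ z i j, h z i * f z j = h z j * f z i) →
    ∀ z, IsPtP σ I' (f z)

/-- Brody hyperbolicity modulo `X'`: every nonconstant entire curve in `X_σ` lies in `X'_σ`. -/
def BrodyIn (σ : k →+* ℂ) (I I' : Ideal (MvPolynomial (Fin (N + 1)) k)) : Prop :=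
  ∀ f : ℂ → Fin (N + 1) → ℂ, (∀ j, Differentiable ℂ (fun z => f z j)) → (∀ z, f z ≠ 0) →
    (∀ z, IsPtP σ I (f z)) → NonConstC f → ∀ z, IsPtP σ I' (f z)

/-- `X(L)` is finite outside of `X'(L)` for all finite extensions `L` of `k`. -/
def FinitePoints (I I' : Ideal (MvPolynomial (Fin (N + 1)) k)) : Prop :=
  ∀ (L : Type) [Field L] [NumberField L] [Algebra k L],
    {P : Projectivization L (Fin (N + 1) → L) |
      IsPtP (algebraMap k L) I P.rep ∧ ¬ IsPtP (algebraMap k L) I' P.rep}.Finite

/-- The sequence of points of `X(L)` outside of `X'(L)` with the homogeneous coordinates `x m`, which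
are P-recursive. -/
structure PRecSeq (L : Type) [Field L] [Algebra k L] (I I' : Ideal (MvPolynomial (Fin (N + 1)) k))
    (x : ℕ → Fin (N + 1) → L) : Prop where
  ne : ∀ m, x m ≠ 0
  mem : ∀ m, IsPtP (algebraMap k L) I (x m)
  off : ∀ m, ¬ IsPtP (algebraMap k L) I' (x m)
  prec : ∀ j, PRec fun m => x m j

/-- All these sequences, for all finite extensions `L` of `k`, are eventually periodic. -/
def SeqPeriodic (I I' : Ideal (MvPolynomial (Fin (N + 1)) k)) : Prop :=
  ∀ (L : Type) [Field L] [NumberField L] [Algebra k L] (x : ℕ → Fin (N + 1) → L)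
    (h : PRecSeq L I I' x), ∃ t m0 : ℕ, 0 < t ∧ ∀ m, m0 ≤ m →
      Projectivization.mk L (x (m + t)) (h.ne (m + t)) = Projectivization.mk L (x m) (h.ne m)

/-- All these sequences, for all finite extensions `L` of `k`, have finitely many different
terms. -/
def SeqFinite (I I' : Ideal (MvPolynomial (Fin (N + 1)) k)) : Prop :=
  ∀ (L : Type) [Field L] [NumberField L] [Algebra k L] (x : ℕ → Fin (N + 1) → L)
    (h : PRecSeq L I I' x), (Set.range fun m => Projectivization.mk L (x m) (h.ne m)).Finite

theorem mk_eq {L : Type} [Field L] {v w : Fin (N + 1) → L} (hv : v ≠ 0) (hw : w ≠ 0) :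
    Projectivization.mk L v hv = Projectivization.mk L w hw ↔ ∀ i j, v i * w j = v j * w i := by
  rw [Projectivization.mk_eq_mk_iff']
  constructor
  · rintro ⟨a, rfl⟩ i j
    simp only [Pi.smul_apply, smul_eq_mul]
    ring
  · intro h
    obtain ⟨i, hi⟩ := Function.ne_iff.1 hw
    have hi' : w i ≠ 0 := hi
    refine ⟨v i / w i, funext fun j => ?_⟩
    simp only [Pi.smul_apply, smul_eq_mul]
    have := h i j
    field_simp
    linear_combination this

theorem isPtP_map {R A A' : Type} [CommRing R] [CommRing A] [CommRing A'] (φ : R →+* A)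
    (g : A →+* A') (hg : Function.Injective g) (I : Ideal (MvPolynomial (Fin (N + 1)) R))
    (x : Fin (N + 1) → A) : IsPtP (g.comp φ) I (fun j => g (x j)) ↔ IsPtP φ I x := by
  unfold IsPtP
  have h1 : ∀ G : MvPolynomial (Fin (N + 1)) R,
      eval₂ (g.comp φ) (fun j => g (x j)) G = g (eval₂ φ x G) := fun G =>
    (eval₂_comp_left g φ x G).symm
  simp only [h1]
  constructor
  · intro h G hG hd
    exact hg (by rw [h G hG hd, map_zero])
  · intro h G hG hd
    rw [h G hG hd, map_zero]

open Set FF Pool.Agent.W602.GT Pool.Agent.W603.BP Pool.Agent.W603.BPR Pool.Agent.W603.GR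
  Pool.Agent.W603.PV Pool.Agent.TH143.GT in
/-- If all rational curves lie in `X'` then all curves with coordinates in the ring lie in `X'`. -/
theorem curves_of_rat {σ : k →+* ℂ} {I I' : Ideal (MvPolynomial (Fin (N + 1)) k)}
    (h : RatCurvesIn σ I I') (z₀ : ℂ) : CurvesIn σ (HolGap z₀ : Set (ℂ → ℂ)) I I' := by
  classical
  rintro F hF hFne hI hnc ⟨c, hc, hc0, hcF⟩ z1
  by_contra hz1
  unfold IsPtP at hz1
  push Not at hz1
  obtain ⟨G', hG', hGh', hne'⟩ := hz1
  have hFa : ∀ j, AnalyticOnNhd ℂ (fun w => F w j) univ := fun j z _ => (hF j).analyticAt z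
  obtain ⟨j0, hj0⟩ := Function.ne_iff.1 (hFne 0)
  obtain ⟨K, i1, i2, w, y, h1, h2, h3, h4, h5⟩ := exists_closure F isPreconnected_univ hFa
    (j0 := j0) ⟨0, mem_univ _, hj0⟩
  have hy : GenPt F univ K w y := ⟨h1, h2, h3, h4⟩
  have hhd : ∀ j, Differentiable ℂ (fun z => c z j) := fun j =>
    Pool.Agent.TH600.LC.gapOver_diff (Y := Holonomic) (fun u hu => hu.1) (hc j)
  obtain ⟨u, hu, hfu⟩ := Pool.Agent.TH600.LC.exists_dfin_tr (Y := Holonomic)
    (fun u hu => hu) hc
  have hforms : ∀ G : MvPolynomial (Fin (N + 1)) ℂ, (∃ e, G.IsHomogeneous e) →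
      ((∀ z, eval (F z) G = 0) ↔ ∀ z, eval (u z) G = 0) := fun G hG =>
    (Pool.Agent.TH600.LC.forms_iff hF hhd ⟨0, hFne 0⟩ hc0 hcF hG).trans (hfu G hG)
  have hgu := Pool.Agent.TH600.LC.genPt_forms hforms hy
  obtain ⟨r, hr⟩ := Pool.Agent.TH600.LC.dfin_not_flat hu hgu
    (Pool.Agent.TH600.LC.nonconst_of_forms hforms hnc)
  unfold AllFlat at hr
  push Not at hr
  obtain ⟨M, _, _, m, W, l, hm, hFam, hr⟩ := hr
  unfold Flat at hr
  push Not at hr
  obtain ⟨d, g1, g0, hg1, hg0, hn, -, hne⟩ := hr
  have hcur : ∀ G : MvPolynomial (Fin (N + 1)) k,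
      eval₂ (Polynomial.C.comp ((algebraMap ℂ M).comp σ)) W G =
        (aeval W (MvPolynomial.map σ G) : Polynomial M) := by
    intro G
    rw [aeval_def, eval₂_map]
    rfl
  have hform : ∀ G : MvPolynomial (Fin (N + 1)) k, (∃ d, G.IsHomogeneous d) →
      IsForm (MvPolynomial.map σ G) := fun G ⟨d, hd⟩ => ⟨d, hd.map σ⟩
  have hCur : RCur ((algebraMap ℂ M).comp σ) I I' W := by
    refine ⟨fun G hG hGf => ?_, ⟨G', hG', hGh', ?_⟩, ?_⟩
    · rw [hcur, ← hFam.rel _ (hform G hGf), h4 _ (hform G hGf)]
      intro z _
      rw [eval_map]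
      exact hI z G hG hGf
    · rw [hcur, Ne, ← hFam.rel _ (hform G' hGh'), h4 _ (hform G' hGh')]
      intro h6
      apply hne'
      have h7 := h6 z1 (mem_univ _)
      rwa [eval_map] at h7
    · by_contra hcon
      push Not at hcon
      -- all coordinates are multiples of one of them
      obtain ⟨k0, hk0⟩ : ∃ k, W k ≠ 0 := by
        by_contra hcon'
        push Not at hcon'
        obtain ⟨i0, hi0⟩ := Function.ne_iff.1 hy.ne
        exact (hFam.ne i0).1 hi0 (hcon' i0)
      obtain ⟨i0, hi0⟩ : ∃ i, (W k0).coeff i ≠ 0 := by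
        by_contra hcon'
        push Not at hcon'
        exact hk0 (Polynomial.ext fun i => by rw [hcon' i, Polynomial.coeff_zero])
      have h6 : W = fun j => W k0 * Polynomial.C ((W j).coeff i0 / (W k0).coeff i0) := by
        funext j
        ext i
        rw [Polynomial.coeff_mul_C, mul_div_assoc', eq_div_iff hi0]
        have := hcon j k0 i i0
        rw [this]
      have h7 : ∀ g : MvPolynomial (Fin (N + 1)) ℂ, g.IsHomogeneous d →
          (aeval W g : Polynomial M) = (W k0) ^ d *
            Polynomial.C (aeval (fun j => (W j).coeff i0 / (W k0).coeff i0) g) := by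
        intro g hg
        rw [aeval_def]
        conv_lhs => rw [h6]
        rw [eval₂_smul_homog _ _ _ hg]
        congr 1
        have h9 := MvPolynomial.comp_aeval_apply (f := fun j => (W j).coeff i0 / (W k0).coeff i0)
          (IsScalarTower.toAlgHom ℂ M (Polynomial M)) g
        exact h9.symm
      apply hne
      rw [h7 g1 hg1, h7 g0 hg0, Polynomial.derivative_mul, Polynomial.derivative_mul,
        Polynomial.derivative_C, Polynomial.derivative_C]
      ring
  obtain ⟨L, _, _, _, p', hp'⟩ := RCur.spec σ hCur
  let e : L →ₐ[ℂ] ℂ := IsAlgClosed.lift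
  have h8 := hp'.map (e : L →+* ℂ)
  have h9 : (e : L →+* ℂ).comp ((algebraMap ℂ L).comp σ) = σ := by
    ext r
    exact e.commutes (σ r)
  rw [h9] at h8
  exact ratCurvesIn_iff.1 h _ h8

/-- Let `k` be a number field, embedded in `ℂ` by `σ`, and let `X` and `X'` be the closed subschemes
of the projective `N`-space over `k` given by the forms in the ideals `I` and `I'`. The following are
equivalent:

1. for every `z₀`, every nonconstant entire curve in `X_σ` with homogeneous coordinates in the ring
   generated by the holonomic entire functions and the entire functions with Hadamard gaps at `z₀`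
   lies in `X'_σ`;
2. every nonconstant entire curve in `X_σ` with holonomic homogeneous coordinates lies in `X'_σ`;
3. for all finite extensions `L` of `k`, all sequences of points of `X(L)` outside of `X'(L)` with
   P-recursive homogeneous coordinates are eventually periodic;
4. all these sequences have finitely many different terms;
5. all rational curves in `X_σ` lie in `X'_σ`.

If all nonconstant entire curves in `X_σ` lie in `X'_σ`, or if `X(L)` is finite outside of `X'(L)` for
all finite extensions `L` of `k`, then these conditions hold. -/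
theorem result [NumberField k] (σ : k →+* ℂ) (I I' : Ideal (MvPolynomial (Fin (N + 1)) k)) :
    [∀ z₀ : ℂ, CurvesIn σ (HolGap z₀ : Set (ℂ → ℂ)) I I', CurvesIn σ Holonomic I I',
      SeqPeriodic I I', SeqFinite I I', RatCurvesIn σ I I'].TFAE ∧
    (BrodyIn σ I I' → SeqPeriodic I I') ∧
    (FinitePoints I I' → ∀ z₀ : ℂ, CurvesIn σ (HolGap z₀ : Set (ℂ → ℂ)) I I') := by
  classical
  have h51 : RatCurvesIn σ I I' → ∀ z₀ : ℂ, CurvesIn σ (HolGap z₀ : Set (ℂ → ℂ)) I I' :=
    fun h z₀ => curves_of_rat h z₀
  have h12 : (∀ z₀ : ℂ, CurvesIn σ (HolGap z₀ : Set (ℂ → ℂ)) I I') →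
      CurvesIn σ Holonomic I I' := by
    rintro h f hf hne hI hnc ⟨g, hg, hg0, hgf⟩
    exact h 0 f hf hne hI hnc ⟨g, fun j => Algebra.subset_adjoin (Or.inl (hg j)), hg0, hgf⟩
  have h25 : CurvesIn σ Holonomic I I' → RatCurvesIn σ I I' := by
    intro h
    refine rat_of_pentire fun f hf hne hode hI hnc => h f hf hne hI hnc
      ⟨f, fun j => ⟨hf j, hode j⟩, ⟨0, hne 0⟩, fun z i j => by ring⟩
  have h53 : RatCurvesIn σ I I' → SeqPeriodic I I' := by
    intro h L _ _ _ x hx
    let _ : Algebra k ℂ := σ.toAlgebra
    have halg : Algebra.IsAlgebraic k L := Algebra.IsAlgebraic.tower_top (K := ℚ) k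
    let e : L →ₐ[k] ℂ := IsAlgClosed.lift
    have he : (e : L →+* ℂ).comp (algebraMap k L) = σ := by
      ext r
      exact e.commutes _
    have hpt : ∀ (J : Ideal (MvPolynomial (Fin (N + 1)) k)) (y : Fin (N + 1) → L),
        IsPtP σ J (fun j => e (y j)) ↔ IsPtP (algebraMap k L) J y := by
      intro J y
      rw [← he]
      exact isPtP_map (algebraMap k L) (e : L →+* ℂ) (e : L →+* ℂ).injective J y
    obtain ⟨t, m0, ht, h1⟩ := proj_periodic h (x := fun m j => e (x m j)) (fun m h0 => hx.ne m (by
        funext j
        exact (e : L →+* ℂ).injective (by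
          have := congrFun h0 j
          simpa using this)))
      (fun j => (hx.prec j).map (e : L →+* ℂ)) (fun m => (hpt I _).2 (hx.mem m))
      (fun m h2 => hx.off m ((hpt I' _).1 h2))
    refine ⟨t, m0, ht, fun m hm => (mk_eq _ _).2 fun i j => ?_⟩
    apply (e : L →+* ℂ).injective
    have := h1 m hm i j
    simpa using this
  have h34 : SeqPeriodic I I' → SeqFinite I I' := by
    intro h L _ _ _ x hx
    obtain ⟨t, m0, ht, hper⟩ := h L x hx
    refine ((Set.finite_lt_nat (m0 + t)).image
      fun m => Projectivization.mk L (x m) (hx.ne m)).subset ?_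
    rintro _ ⟨m, rfl⟩
    induction m using Nat.strong_induction_on with
    | _ m ih =>
      rcases Nat.lt_or_ge m (m0 + t) with h1 | h1
      · exact ⟨m, h1, rfl⟩
      · obtain ⟨m', rfl⟩ : ∃ m', m = m' + t := ⟨m - t, by omega⟩
        have h2 := hper m' (by omega)
        obtain ⟨a, ha, hae⟩ := ih m' (by omega)
        exact ⟨a, ha, hae.trans h2.symm⟩
  have h45 : SeqFinite I I' → RatCurvesIn σ I I' := by
    intro h
    rw [ratCurvesIn_iff]
    intro p hp
    let _ : Algebra k ℂ := σ.toAlgebra
    have hp1 : RCur ((algebraMap k ℂ).comp (RingHom.id k)) I I' p := by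
      rw [RingHom.comp_id]
      exact hp
    obtain ⟨L, _, _, _, p', hp'⟩ := RCur.spec (k := k) (E := ℂ) (RingHom.id k) hp1
    rw [RingHom.comp_id] at hp'
    have hchar : CharZero L := charZero_of_injective_algebraMap (algebraMap k L).injective
    have hfin : FiniteDimensional ℚ L := FiniteDimensional.trans ℚ k L
    have hnf : NumberField L := ⟨⟩
    obtain ⟨x, h1, h2, h3, h4, h5⟩ := exists_seq_rat (algebraMap k L) hp'
    have hx : PRecSeq L I I' x := ⟨h1, h2, h3, h4⟩
    have h6 := h L x hx
    -- the fibres are finite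
    have h7 : (Set.univ : Set ℕ).Finite := by
      have h8 : (Set.univ : Set ℕ) = ⋃ P ∈ Set.range fun m => Projectivization.mk L (x m) (hx.ne m),
          {m | Projectivization.mk L (x m) (hx.ne m) = P} := by
        ext m
        simp only [Set.mem_univ, Set.mem_iUnion, Set.mem_ofPred_eq, true_iff]
        exact ⟨_, ⟨m, rfl⟩, rfl⟩
      rw [h8]
      refine h6.biUnion ?_
      rintro _ ⟨m, rfl⟩
      refine (h5 (x m) (hx.ne m)).subset ?_
      intro m' hm'
      exact (mk_eq _ _).1 hm'
    exact Set.infinite_univ h7
  refine ⟨?_, fun h => h53 (h25 fun f hf hne hI hnc _ => h f hf hne hI hnc),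
    fun h => h51 (h45 ?_)⟩
  · tfae_have 1 → 2 := h12
    tfae_have 2 → 5 := h25
    tfae_have 5 → 3 := h53
    tfae_have 3 → 4 := h34
    tfae_have 4 → 5 := h45
    tfae_have 5 → 1 := h51
    tfae_finish
  · intro L _ _ _ x hx
    refine (h L).subset ?_
    rintro _ ⟨m, rfl⟩
    have h1 : ∀ J : Ideal (MvPolynomial (Fin (N + 1)) k),
        IsPtP (algebraMap k L) J (Projectivization.mk L (x m) (hx.ne m)).rep ↔
          IsPtP (algebraMap k L) J (x m) := by
      intro J
      obtain ⟨a, ha⟩ := Projectivization.exists_smul_eq_mk_rep L (x m) (hx.ne m)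
      rw [← ha]
      unfold IsPtP
      constructor
      · intro h2 G hG hd
        have h3 := h2 G hG hd
        obtain ⟨d, hd⟩ := hd
        have h4 : ((a : L) • x m) = fun j => (a : L) * x m j := rfl
        have h5 : (a • x m) = fun j => (a : L) * x m j := rfl
        rw [h5, eval₂_smul_homog _ (a : L) (x m) hd] at h3
        exact (mul_eq_zero.1 h3).resolve_left (pow_ne_zero _ a.ne_zero)
      · intro h2 G hG hd
        have h3 := h2 G hG hd
        obtain ⟨d, hd⟩ := hd
        have h5 : (a • x m) = fun j => (a : L) * x m j := rfl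
        rw [h5, eval₂_smul_homog _ (a : L) (x m) hd, h3, mul_zero]
    exact ⟨(h1 I).2 (hx.mem m), fun h2 => hx.off m ((h1 I').1 h2)⟩

end Pool.Agent.Results.MP_f82ddf_nt.HolonomicLang
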