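import Mathlib
import Pool.Agent.U647.LT.Hyp

/-!
# Lang's conjecture for varieties over abelian varieties: finitely many points imply hyperbolicity

`X = {F = 0}` is a closed subset of projective space over the number field `k`, `σ` is an embedding
of `k` into `ℂ`, and `X_σ` (which may be singular, of any dimension) has a holomorphic map `α` to an
abelian variety such that

* `X_σ` has 2-forms which are positive in the directions of the abelian variety, outside an
  algebraic subset `S` (`TwoForms`);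
* the entire curves in the fibres of `α` and in `S` lie in algebraic sets of dimension at most one
  (`Low`); this holds if `S` and the fibres are of dimension at most one.

If `X(L)` is finite for all finite extensions `L` of `k`, then `X_σ` is hyperbolic in the sense of
Brody and of Kobayashi, its Kobayashi distance is bounded below by a multiple of a projective
distance, and all holomorphic maps from the punctured disc to `X_σ` extend to the disc.

More generally let `X'` be a closed subset over `k`, such that `X(L) \ X'(L)` is finite for all `L`.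
Then every nonconstant entire curve `f` in `X_σ` factors through a map from an elliptic curve to
`X'_σ`, or the closure of its image contains a nonconstant entire curve in `X'_σ` which lies in `S`
or in a fibre. If all entire curves in `X'_σ` which lie in `S` or in a fibre are constant, then the
nonconstant entire curves in `X_σ` factor through finitely many maps from elliptic curves to `X'_σ`,
and different points of `X_σ` have positive Kobayashi distance unless both are in `X'_σ`.

The proof: the Zariski closures of the entire curves in the fibres and in `S` are curves of genus at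
most one (Picard's theorem for curves of genus at least two), these and the elliptic curves which are
not in the fibres are defined over `\bar k` after a deformation (specialization), and they have
infinitely many points over some number field. The analytic part is the theorem `abel_geo` of
`Pool.Agent.N154.TB` (helper154), Picard's theorem is from `Pool.Agent.Q285.SFG` (helper285), the
specialization from `Pool.Agent.Y719.LC` (helper719), the points from `Pool.Agent.Q103.AR`
(helper103).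
-/

set_option autoImplicit false

namespace Pool.Agent.Results.MP_f82ddf_nt.OverAbelianVarieties

open MvPolynomial Pool.Agent.U647.LT
open Pool.Agent.W602.GT (IsForm Cone)
open Pool.Agent.N154.TB (CurveIn IsConst Zeros BrodyHyp TwoForms Elliptic OverLine Factors)
open Pool.Agent.N154.TT (HolToTorus RiemannForm)
open Pool.Agent.N154.GG (kobayashi projDist PunctIn Extends)
open scoped LinearAlgebra.Projectivization

variable {k : Type} [Field k] {n m d : ℕ} {ι : Type} {Λ : Submodule ℤ (Fin m → ℂ)}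
  {H : (Fin m → ℂ) → (Fin m → ℂ) → ℂ} {α : (Fin (n + 1) → ℂ) → (Fin m → ℂ) ⧸ Λ} {κ : Type}
  {w : κ → ℕ} {η : κ → (Fin (n + 1) → ℂ) → (Fin (n + 1) → ℂ) → (Fin (n + 1) → ℂ) → ℂ} {γ : Type}
  {G : γ → MvPolynomial (Fin (n + 1)) ℂ}

/-- The image of the entire curve `f` lies in a fibre of the map `α` or in the set `{G = 0}`. -/
def Special (α : (Fin (n + 1) → ℂ) → (Fin m → ℂ) ⧸ Λ) (G : γ → MvPolynomial (Fin (n + 1)) ℂ)
    (f : ℂ → ℙ ℂ (Fin (n + 1) → ℂ)) : Prop :=
  (∀ z w, α (f z).rep = α (f w).rep) ∨ ∀ z, (f z).rep ∈ Zeros G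

/-- **Lang's conjecture over abelian varieties** -/
theorem result [NumberField k] [DiscreteTopology Λ] [IsZLattice ℝ Λ] (σ : k →+* ℂ)
    (F : ι → MvPolynomial (Fin (n + 1)) k) (hF : ∀ i, IsForm (F i)) (hG : ∀ i, IsForm (G i))
    -- the complex torus is an abelian variety, and `α` is a holomorphic map from `X_σ` to it
    (hH : RiemannForm Λ H) (hα : HolToTorus (Cone (Conj σ F)) Λ α)
    -- positivity of the 2-forms in the directions of the abelian variety, outside `{G = 0}`
    (hη : TwoForms (Cone (Conj σ F)) (Zeros G) d α w η)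
    -- the entire curves in the fibres and in `{G = 0}` lie in algebraic sets of dimension one
    (hlow : ∀ f, CurveIn (Cone (Conj σ F)) f → Special α G f → Low f) :
    ((∀ (L : Type) [Field L] [Algebra k L] [FiniteDimensional k L], (Points F L).Finite) →
      BrodyHyp (Cone (Conj σ F)) ∧
      (∀ p q : ℙ ℂ (Fin (n + 1) → ℂ), p.rep ∈ Cone (Conj σ F) → q.rep ∈ Cone (Conj σ F) → p ≠ q →
        0 < kobayashi (Cone (Conj σ F)) p q) ∧
      (∃ c : ℝ, 0 < c ∧ ∀ p q : ℙ ℂ (Fin (n + 1) → ℂ), p.rep ∈ Cone (Conj σ F) →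
        q.rep ∈ Cone (Conj σ F) →
          ENNReal.ofReal (c * min 1 (projDist p q)) ≤ kobayashi (Cone (Conj σ F)) p q) ∧
      ∀ f, PunctIn (Conj σ F) f → Extends (Conj σ F) f) ∧
    ∀ (ι' : Type) (F' : ι' → MvPolynomial (Fin (n + 1)) k), (∀ i, IsForm (F' i)) →
      (∀ (L : Type) [Field L] [Algebra k L] [FiniteDimensional k L],
        (Points F L \ Points F' L).Finite) →
      (∀ f, CurveIn (Cone (Conj σ F)) f → IsConst f ∨
        (∃ g, CurveIn (Cone (Conj σ F) ∩ Cone (Conj σ F')) g ∧ Elliptic g ∧ OverLine α g ∧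
          ∃ s : ℂ → ℂ, Differentiable ℂ s ∧ ∀ z, f z = g (s z)) ∨
        ∃ h, CurveIn (Cone (Conj σ F) ∩ Cone (Conj σ F')) h ∧ ¬ IsConst h ∧ Special α G h ∧
          (∀ z, ∀ ε > 0, ∃ w, projDist (h z) (f w) < ε) ∧
          ∀ z w, projDist (h z) (h w) ≤ 2 * ‖z - w‖) ∧
      ((∀ f, CurveIn (Cone (Conj σ F) ∩ Cone (Conj σ F')) f → Special α G f → IsConst f) →
      ∃ T : Set (ℂ → ℙ ℂ (Fin (n + 1) → ℂ)), T.Finite ∧
        (∀ g ∈ T, CurveIn (Cone (Conj σ F) ∩ Cone (Conj σ F')) g ∧ Elliptic g ∧ OverLine α g) ∧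
        (∀ f, CurveIn (Cone (Conj σ F)) f → IsConst f ∨ Factors T f) ∧
        (∀ f, PunctIn (Conj σ F) f → Extends (Conj σ F) f ∨ ∃ g ∈ T, ∃ s : ℂ → ℂ,
          DifferentiableOn ℂ s {z | z.re < 0} ∧
          ∀ z : ℂ, z.re < 0 → f (Complex.exp z) = g (s z)) ∧
        (∀ ε : ℝ, 0 < ε → ∃ c : ℝ, 0 < c ∧ ∀ p q : ℙ ℂ (Fin (n + 1) → ℂ),
          p.rep ∈ Cone (Conj σ F) → q.rep ∈ Cone (Conj σ F) → ∀ D : ℝ, 0 ≤ D → D ≤ 1 →
          (∀ r : ℙ ℂ (Fin (n + 1) → ℂ), r.rep ∈ Cone (Conj σ F) → r.rep ∈ Cone (Conj σ F') →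
            D ≤ projDist p r) →
          ENNReal.ofReal (c * D ^ ε * min D (projDist p q)) ≤ kobayashi (Cone (Conj σ F)) p q) ∧
        ∀ p q : ℙ ℂ (Fin (n + 1) → ℂ), p.rep ∈ Cone (Conj σ F) → q.rep ∈ Cone (Conj σ F) →
          p ≠ q → ¬ (p.rep ∈ Cone (Conj σ F') ∧ q.rep ∈ Cone (Conj σ F')) →
          0 < kobayashi (Cone (Conj σ F)) p q) := by
  classical
  have hgen : ∀ (ι' : Type) (F' : ι' → MvPolynomial (Fin (n + 1)) k), (∀ i, IsForm (F' i)) →
      (∀ f, CurveIn (Cone (Conj σ F) ∩ Cone (Conj σ F')) f → Special α G f → IsConst f) →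
      (∀ (L : Type) [Field L] [Algebra k L] [FiniteDimensional k L],
        (Points F L \ Points F' L).Finite) →
      ∃ T : Set (ℂ → ℙ ℂ (Fin (n + 1) → ℂ)), T.Finite ∧
        (∀ g ∈ T, CurveIn (Cone (Conj σ F) ∩ Cone (Conj σ F')) g ∧ Elliptic g ∧ OverLine α g) ∧
        (∀ f, CurveIn (Cone (Conj σ F)) f → IsConst f ∨ Factors T f) ∧
        (∀ f, PunctIn (Conj σ F) f → Extends (Conj σ F) f ∨ ∃ g ∈ T, ∃ s : ℂ → ℂ,
          DifferentiableOn ℂ s {z | z.re < 0} ∧
          ∀ z : ℂ, z.re < 0 → f (Complex.exp z) = g (s z)) ∧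
        (∀ ε : ℝ, 0 < ε → ∃ c : ℝ, 0 < c ∧ ∀ p q : ℙ ℂ (Fin (n + 1) → ℂ),
          p.rep ∈ Cone (Conj σ F) → q.rep ∈ Cone (Conj σ F) → ∀ D : ℝ, 0 ≤ D → D ≤ 1 →
          (∀ r : ℙ ℂ (Fin (n + 1) → ℂ), r.rep ∈ Cone (Conj σ F) → r.rep ∈ Cone (Conj σ F') →
            D ≤ projDist p r) →
          ENNReal.ofReal (c * D ^ ε * min D (projDist p q)) ≤ kobayashi (Cone (Conj σ F)) p q) ∧
        ∀ p q : ℙ ℂ (Fin (n + 1) → ℂ), p.rep ∈ Cone (Conj σ F) → q.rep ∈ Cone (Conj σ F) →
          p ≠ q → ¬ (p.rep ∈ Cone (Conj σ F') ∧ q.rep ∈ Cone (Conj σ F')) →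
          0 < kobayashi (Cone (Conj σ F)) p q := by
    intro ι' F' hF' hno hfin
    obtain ⟨T, h1, h2, h3, h4, h5, h6⟩ := hyp_main σ hF hF' hG hH hα hη hlow hfin hno
    refine ⟨T, h1, h2, h3, h4, fun ε hε => ?_, ?_⟩
    · obtain ⟨c, hc, hcb⟩ := h5 ε hε
      exact ⟨c, hc, fun p q hp hq D hD0 hD1 hD => hcb p q hp hq D hD0 hD1 fun g hg z =>
        hD _ ((h2 g hg).1.2 z).1 ((h2 g hg).1.2 z).2⟩
    · have hkey : ∀ p q : ℙ ℂ (Fin (n + 1) → ℂ), p.rep ∈ Cone (Conj σ F) →
          q.rep ∈ Cone (Conj σ F) → p ≠ q → p.rep ∉ Cone (Conj σ F') →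
          0 < kobayashi (Cone (Conj σ F)) p q := by
        intro p q hp hq hpq hp'
        obtain ⟨D, hD0, hD1, hD⟩ := h6 p fun g hg z h => hp' (by
          rw [h]
          exact ((h2 g hg).1.2 z).2)
        obtain ⟨c, hc, hcb⟩ := h5 1 one_pos
        refine lt_of_lt_of_le ?_ (hcb p q hp hq D hD0.le hD1 hD)
        have h7 := projDist_pos hpq
        rw [ENNReal.ofReal_pos]
        have h8 : 0 < D ^ (1 : ℝ) := Real.rpow_pos_of_pos hD0 _
        have h9 : 0 < min D (projDist p q) := lt_min hD0 h7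
        positivity
      intro p q hp hq hpq hno2
      by_cases hp' : p.rep ∈ Cone (Conj σ F')
      · rw [kob_symm]
        exact hkey q p hq hp hpq.symm fun h => hno2 ⟨hp', h⟩
      · exact hkey p q hp hq hpq hp'
  refine ⟨fun hfin => ?_, fun ι' F' hF' hfin =>
    ⟨fun f hf => hyp_any σ hF hF' hG hH hα hη hlow hfin hf, fun hno => hgen ι' F' hF' hno hfin⟩⟩
  -- the empty set `X'`
  let F' : Unit → MvPolynomial (Fin (n + 1)) k := fun _ => 1
  have hF' : ∀ i, IsForm (F' i) := fun _ => ⟨0, isHomogeneous_one _ _⟩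
  have hempty : ∀ x, x ∉ Cone (Conj σ F') := by
    rintro x ⟨-, hx⟩
    have h1 := hx ()
    simp [Conj, F', Pool.Agent.W602.GT.val] at h1
  obtain ⟨T, h1, h2, h3, h4, h5, h6⟩ := hgen Unit F' hF'
    (fun f hf _ => absurd (hf.2 0).2 (hempty _)) (fun L _ _ _ => (hfin L).subset Set.sdiff_subset)
  have hT : ∀ g, g ∉ T := fun g hg => hempty _ ((h2 g hg).1.2 0).2
  refine ⟨fun f hf => (h3 f hf).resolve_right ?_, fun p q hp hq hpq =>
    h6 p q hp hq hpq fun h => hempty _ h.1, ?_, fun f hf => (h4 f hf).resolve_right ?_⟩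
  · rintro ⟨g, hg, -⟩
    exact hT g hg
  · obtain ⟨c, hc, hcb⟩ := h5 1 one_pos
    refine ⟨c, hc, fun p q hp hq => ?_⟩
    have h7 := hcb p q hp hq 1 zero_le_one le_rfl fun r _ hr => absurd hr (hempty _)
    rwa [Real.one_rpow, mul_one] at h7
  · rintro ⟨g, hg, -⟩
    exact hT g hg

end Pool.Agent.Results.MP_f82ddf_nt.OverAbelianVarieties
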