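import Pool.Agent.U207.SM.Thm

/-!
# Lang's question for singular varieties and for smooth varieties over hyperbolic intersections of quadrics

Let `X` be any projective variety (closed subset of `P^n`, any singularities) over a field `K` of
characteristic zero.

(1) There are a smooth complete intersection of quadrics `V = {x_l^2 = P_l(w), l < c}` in `P^{N+c}` over
`K`, such that `V_σ` is hyperbolic for all complex embeddings `σ` of `K`, with the point
`v_0 = (1 : 0 : … : 0 : 1 : … : 1)`, and a smooth complete intersection
`Y = {∑_k w_k A_{ik}(h) = 0, i < s}` in `P^n × V` with forms `A_{ik}` of the same degree, such that the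
projection `Y → V` has the fibre `X` over `v_0` (and over the other points with `w = (1 : 0 : … : 0)`),
and finite fibres over all other points of `V` over all extension fields of `K`. So `Y_σ` is
hyperbolic if and only if `X_σ` is, and if `V(L)` is finite, then `Y(L)` is finite if and only if `X(L)` is.
So `X` is contracted to a point by a morphism `Y → V` of a smooth projective variety `Y` which has
finite fibres outside of the copies of `X`.

(2) For a number field `K` and an embedding `σ` of `K` in `ℂ` the following are equivalent:
Q1 (`X_σ` is hyperbolic if and only if `X(L)` is finite for all finite extensions `L` of `K`) for all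
projective varieties `X` over `K` with arbitrary singularities; Q1 for all smooth complete
intersections in products `P^n × P^m` over `K`; Q1 for the smooth varieties `Y` of (1). The same holds for
the first half of Q1 (if `X_σ` is hyperbolic, then `X(L)` is finite for all `L`). So Q1 for all
projective manifolds is equivalent to these statements. In the case of the varieties `Y`, every entire
curve in `Y_σ`, and, if Q1 holds for `V`, all but finitely many points of `Y(L)`, lie in
finitely many fibres, which are contracted by the generically finite morphism to `V`.

Proof. See `Pool/Agent/U207/SM`. `V` is a covering of `P^N` (see my hand-in on MP_627a61_nt; Büchi's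
problem). The forms `A_{i0}` define `X`, and the others are general: for algebraically independent
coefficients smoothness follows by applying the derivations with respect to the coefficients to the
equations of a singular point (and by counting dimensions over the point `w = (1 : 0 : … : 0)`), and
the same method shows that there are no nonconstant jets of order 3 in the other fibres; by
the Taylor homomorphism of a derivation the coordinates of the points in these fibres are algebraic over
the ground field, and they are finite by an ultrapower argument. The last step is a specialization of
the coefficients. In (2) a point of `Y(L)` is in the fibre over a point of `V(L)`, which is a finite set by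
Q1 for `V = P^0 × V`. Subsets of `P^n × P^m` are embedded by the Segre embedding; entire curves are lifted
by removing common zeros.
-/

set_option autoImplicit false

namespace Pool.Agent.Results.MP_f82ddf_nt.SmoothModels

open MvPolynomial
open Pool.Agent.U207.QK (coverForm)
open Pool.Agent.U207.SM

theorem result :
    (∀ (K : Type) [Field K] [CharZero K] (n : ℕ) (ι : Type) [Finite ι]
      (F : ι → MvPolynomial (Fin (n + 1)) K), (∀ i, ∃ e, (F i).IsHomogeneous e) →
      ∃ (N c s : ℕ) (A : Fin s → Fin (N + 1) → MvPolynomial (Fin (n + 1)) K)
        (P : Fin c → MvPolynomial (Fin (N + 1)) K), Model A P ∧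
        (∀ (Ω : Type) [Field Ω] [Algebra K Ω] (x : Fin (n + 1) → Ω), x ≠ 0 →
          ((∀ i, aeval x (A i 0) = 0) ↔ ∀ i, aeval x (F i) = 0)) ∧
        (∀ σ : K →+* ℂ, Hyperbolic₂ σ (modelEqs A P) ↔ Hyperbolic σ F) ∧
        ∀ (L : Type) [Field L] [Algebra K L], (points L (coverForm P)).Finite →
          ((points₂ L (modelEqs A P)).Finite ↔ (points L F).Finite)) ∧
    ∀ (K : Type) [Field K] [NumberField K] (σ : K →+* ℂ),
      [Q1All σ, Q1Smooth σ, Q1Models σ].TFAE ∧ [HalfAll σ, HalfSmooth σ, HalfModels σ].TFAE := by
  refine ⟨?_, fun K _ _ σ => ⟨q1_tfae σ, half_tfae σ⟩⟩
  intro K _ _ n ι _ F hF
  obtain ⟨N, c, s, A, P, hM, hAF⟩ := exists_model_of K F hF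
  refine ⟨N, c, s, A, P, hM, hAF, fun σ => ?_, fun L _ _ hV => ?_⟩
  · rw [hyp_model hM σ, hyp_congr σ hAF]
  · rw [← points_congr hAF L]
    exact ⟨fin_down hM L, fin_up hM L hV⟩

end Pool.Agent.Results.MP_f82ddf_nt.SmoothModels
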