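import Mathlib
import Pool.Agent.U647.IS.LSurf

/-!
# Lang's conjecture for surfaces of general type with enough differentials

`X = {F = 0}` is a closed subset of projective space over the number field `k`, `σ` is an embedding
of `k` into `ℂ`, and `X_σ` is a smooth projective surface of general type with function field `K`,
such that one of the following conditions is true:

* `X_σ` has a nonconstant holomorphic map to a complex torus (`TorusMap`; we assume that the fibres
  are not Zariski dense, by Chow's theorem this is true for all nonconstant maps),
* `X_σ` has a nonconstant rational map to an elliptic curve (`EllipticMap`),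
* `X_σ` has regular symmetric differentials without a common direction (`NoDirection`),
* `X_σ` has a regular symmetric differential of the form `h da₁ ⋯ da_d` (`ProductDifferential`).

The first condition is true for all surfaces of general type with irregularity `q > 0`.

If `X(L)` is finite for all finite extensions `L` of `k`, then `X_σ` is Kobayashi hyperbolic, its
Kobayashi distance is bounded below by a multiple of a projective distance, and all holomorphic maps
from the punctured disc to `X_σ` extend to the disc. This is one implication of Lang's conjecture.

Both implications are true for the points on curves of genus at most one: the following are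
equivalent: `X_σ` is Kobayashi hyperbolic; `X_σ` is Brody hyperbolic; for all finite extensions `L` of
`k` there are no nonconstant maps over `L` from the line or from an elliptic curve to `X`; for all `L`
and all nonconstant maps over `L` from plane cubics to `X` the images of the `L`-points are finite in
number. As the last two conditions do not depend on `σ`, hyperbolicity does not depend on `σ`.

The proof. The curves in `X_σ` are of general type, by specialization and as curves of genus at most
one have infinitely many points over some number field. For `TorusMap` the main step is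
`Pool.Agent.U647.IS.exists_twoForms`: on a smooth surface of general type there is a holomorphic
section of a power of the canonical bundle twisted by `O(-1)`, without zeros outside of a curve
(Kodaira's lemma; the pluricanonical forms are holomorphic on the manifold `X_σ`); so the theorems of
`Pool.Agent.N154.TB` (helper154) on Brody curves in projective sets over complex tori apply. The
other conditions are those of the theorems of `Pool.Agent.N155` (helper155) for complex surfaces.
-/

set_option autoImplicit false

namespace Pool.Agent.Results.MP_f82ddf_nt.SurfacesWithDifferentials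

open MvPolynomial Pool.Agent.U647.LT Pool.Agent.U647.IS
open Pool.Agent.W602.GT (IsForm Cone GeneralType val)
open Pool.Agent.N155 (SmoothSurface SymD BoundedDer)
open Pool.Agent.N154.TB (CurveIn IsConst BrodyHyp Elliptic OverLine Zeros)
open Pool.Agent.N154.TT (HolToTorus RiemannForm)
open Pool.Agent.N154.GG (kobayashi projDist PunctIn Extends)
open Pool.Agent.Y719.LC (AlgIn)
open scoped LinearAlgebra.Projectivization

variable {k : Type} [Field k] {n : ℕ} {ι : Type}

/-- The Kobayashi pseudodistance of the projective set with the cone `X` is a distance. -/
def KobayashiHyperbolic (X : Set (Fin (n + 1) → ℂ)) : Prop :=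
  ∀ p q : ℙ ℂ (Fin (n + 1) → ℂ), p.rep ∈ X → q.rep ∈ X → p ≠ q → 0 < kobayashi X p q

/-- There are no nonconstant maps over finite extensions `L` of `k` from the line or from an elliptic
curve to `X = {F = 0}`. -/
def NoGenusOne (F : ι → MvPolynomial (Fin (n + 1)) k) : Prop :=
  ∀ (L : Type) [Field L] [Algebra k L] [FiniteDimensional k L],
    AlgIn (algebraMap k L) (Ideal.span (Set.range F)) (Ideal.span (Set.range fun _ : Unit => 1))

/-- For all finite extensions `L` of `k` and all nonconstant maps over `L` from plane cubics
`y² = x³ + a x + b` to `X = {F = 0}`, the images of the `L`-points of the cubic are finite in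
number. -/
def CubicPointsFinite (F : ι → MvPolynomial (Fin (n + 1)) k) : Prop :=
  ∀ (L : Type) [Field L] [Algebra k L] [FiniteDimensional k L] (a b : L)
    (P Q : Fin (n + 1) → Polynomial L),
    (∀ G ∈ Ideal.span (Set.range F), (∃ d, G.IsHomogeneous d) →
      Pool.Agent.Y719.LC.onC (algebraMap k L) a b P Q G = 0) → Pool.Agent.Y719.LC.NCt P Q →
    (CubicPoints (Ideal.span (Set.range fun _ : Unit => (1 : MvPolynomial (Fin (n + 1)) k)))
      a b P Q).Finite

/-- **Lang's conjecture for surfaces of general type with enough differentials** -/
theorem result [NumberField k] (σ : k →+* ℂ) (F : ι → MvPolynomial (Fin (n + 1)) k)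
    (hF : ∀ i, IsForm (F i)) {K : Type} [Field K] [Algebra ℂ K] (y : Fin (n + 1) → K)
    (hX : SmoothSurface (Conj σ F) y) (hgt : GeneralType ℂ K 2)
    (hD : TorusMap (Conj σ F) y ∨ EllipticMap K ∨ NoDirection K ∨ ProductDifferential K) :
    ((∀ (L : Type) [Field L] [Algebra k L] [FiniteDimensional k L], (Points F L).Finite) →
      KobayashiHyperbolic (Cone (Conj σ F)) ∧
      (∃ c : ℝ, 0 < c ∧ ∀ p q : ℙ ℂ (Fin (n + 1) → ℂ), p.rep ∈ Cone (Conj σ F) →
        q.rep ∈ Cone (Conj σ F) →
          ENNReal.ofReal (c * min 1 (projDist p q)) ≤ kobayashi (Cone (Conj σ F)) p q) ∧
      ∀ f, PunctIn (Conj σ F) f → Extends (Conj σ F) f) ∧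
    [KobayashiHyperbolic (Cone (Conj σ F)), BrodyHyp (Cone (Conj σ F)), NoGenusOne F,
      CubicPointsFinite F].TFAE := by
  classical
  have h12 : KobayashiHyperbolic (Cone (Conj σ F)) → BrodyHyp (Cone (Conj σ F)) := brody_of_kob
  have h21 : BrodyHyp (Cone (Conj σ F)) → KobayashiHyperbolic (Cone (Conj σ F)) :=
    fun hB p q hp hq hpq => kob_of_brody hX.form hB hp hq hpq
  have h23 : BrodyHyp (Cone (Conj σ F)) → NoGenusOne F := by
    intro hB L _ _ _
    obtain ⟨hR, hE⟩ := alg_of_brody σ hF hB (Ideal.span (Set.range fun _ : Unit => 1))
    exact genusOne_of_alg σ hR hE L
  have h34 : NoGenusOne F → CubicPointsFinite F := by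
    intro h L _ _ _ a b P Q hz hnc
    have hchar : CharZero L := charZero_of_injective_algebraMap (algebraMap k L).injective
    rw [cubic_empty (h L) hz hnc]
    exact Set.finite_empty
  have h42 : CubicPointsFinite F → BrodyHyp (Cone (Conj σ F)) := by
    intro h
    have hc : CubicFin (Ideal.span (Set.range F))
        (Ideal.span (Set.range fun _ : Unit => (1 : MvPolynomial (Fin (n + 1)) k))) := by
      intro L _ _ _ a b P Q hz hnc
      have h0 : FiniteDimensional k L := Module.Finite.of_restrictScalars_finite ℚ k L
      exact h L a b P Q hz hnc
    exact brody_of_all hX (allSub_of hX.sub hX.irred hgt fun E _ _ v hv =>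
      gt_of_low σ hF (rat_of_cub σ hc) (ell_of_cub σ hc) E v hv) hD
  refine ⟨fun hfin => ?_, ?_⟩
  · have hB := brody_of_all hX (allSub_of_fin σ hF hX hgt hfin) hD
    exact ⟨h21 hB, (geo_of_brody hX.form hB).1, (geo_of_brody hX.form hB).2⟩
  · tfae_have 1 → 2 := h12
    tfae_have 2 → 1 := h21
    tfae_have 2 → 3 := h23
    tfae_have 3 → 4 := h34
    tfae_have 4 → 2 := h42
    tfae_finish

end Pool.Agent.Results.MP_f82ddf_nt.SurfacesWithDifferentials
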